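import Pool.Agent.R303.LW.Kb

/-!
# The inequality in property (P) on every window `[X, X^(1+δ)]`

`I(X,H) = ∫_X^{2X} |∑_{x ≤ n ≤ x+H} λ(n)| dx`.

1. (Unconditional) For all `0 < ε < 1`, all large `X` and all `0 < H ≤ X` there is a `Y` in `[X, X^(1+ε)]` with
   `I(Y,H) ≥ H X^(1/2)`.
2. If `ζ` has a zero with real part `> θ ≥ 1/2`, the same holds with `I(Y,H) ≥ H X^θ`.
3. (Unconditional) For every `ε > 0` there is a `δ > 0` such that for all large `X` and all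
   `X^(1-δ) ≤ H ≤ X` there is a `Y` in `[X, X^(1+δ)]` with `I(Y,H) ≥ Y H^(1/2-ε)`. If `ζ` has a zero with real
   part `> θ ≥ 1/2`, the same holds for all `X^(2(1-θ)-δ) ≤ H ≤ X`.
-/

set_option autoImplicit false
set_option maxHeartbeats 4000000

open Filter Topology Set MeasureTheory
open Pool.Agent.W190 (SF rh_free)
open Pool.Agent.R303.SW
open Pool.Agent.R303.LW (ll LL)

namespace Pool.Agent.Results.MP_f7161d_nt.LongWindows

/-- the sum of `λ(n)` over the natural numbers `n` with `x ≤ n ≤ x + H` -/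
noncomputable def S (x H : ℝ) : ℝ :=
  ∑ n ∈ (Finset.range (⌊x + H⌋₊ + 1)).filter (fun n : ℕ => x ≤ (n : ℝ)),
    ((ArithmeticFunction.liouville n : ℤ) : ℝ)

/-- `I(X,H)` -/
noncomputable def I (X H : ℝ) : ℝ := ∫ x in X..(2 * X), |S x H|

lemma S_eq {x H : ℝ} (hx : 0 < x) (hH : 0 < H) (hn : ∀ n : ℕ, x + 0 / 2 ≠ n) :
    S x H = SF laR (x + H) - SF laR x := by
  unfold S SF
  have hle : ⌊x⌋₊ ≤ ⌊x + H⌋₊ := Nat.floor_le_floor (by linarith)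
  have e1 : Finset.Icc 1 ⌊x + H⌋₊ = Finset.Icc 1 ⌊x⌋₊ ∪ Finset.Ioc ⌊x⌋₊ ⌊x + H⌋₊ := by
    ext n
    simp only [Finset.mem_union, Finset.mem_Icc, Finset.mem_Ioc]
    omega
  rw [e1, Finset.sum_union (Finset.disjoint_left.2 fun n h1 h2 => by
    rw [Finset.mem_Icc] at h1
    rw [Finset.mem_Ioc] at h2
    omega), add_sub_cancel_left]
  have e2 : (Finset.range (⌊x + H⌋₊ + 1)).filter (fun n : ℕ => x ≤ (n : ℝ)) =
      Finset.Ioc ⌊x⌋₊ ⌊x + H⌋₊ := by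
    ext n
    rw [Finset.mem_filter, Finset.mem_range, Finset.mem_Ioc, Nat.floor_lt hx.le]
    constructor
    · rintro ⟨h1, h2⟩
      refine ⟨lt_of_le_of_ne h2 ?_, by omega⟩
      have := hn n
      rw [zero_div, add_zero] at this
      exact this
    · rintro ⟨h1, h2⟩
      exact ⟨by omega, h1.le⟩
  rw [e2]
  rfl

lemma I_eq {X H : ℝ} (hX : 0 < X) (hH : 0 < H) :
    I X H = ∫ x in X..(2 * X), |DG laR H x| := by
  unfold I
  refine intervalIntegral.integral_congr_ae ?_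
  filter_upwards [ae_not_nat 0] with x hx hx2
  rw [uIoc_of_le (by linarith)] at hx2
  show |S x H| = |DG laR H x|
  rw [S_eq (hX.trans hx2.1) hH hx]
  rfl

/-- from the kernel to the windows -/
lemma low_of_core {β : ℝ} (hβ : 1 / 2 ≤ β)
    (hcore : ∃ c : ℝ, 0 < c ∧ ∀ᶠ t : ℝ in atTop,
      c * Real.exp (β * t) ≤ ∫ v : ℝ, |ll (t - v)| * H313.TK.kp v) :
    ∃ c : ℝ, 0 < c ∧ ∀ᶠ z : ℝ in atTop, c * z ^ (1 + β) ≤ ∫ y in z..(z * Real.log z), |SF laR y| :=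
  Pool.Agent.R303.LW.win_y (f := ll) (g := SF laR) (fun _ => rfl) (SF_meas laR)
    (fun x hx => by
      rcases hx.eq_or_lt with h | h
      · rw [← h]
        unfold SF
        simp
      · have := Pool.Agent.R303.LW.abs_ll_le (Real.log x)
        unfold ll LL at this
        rwa [Real.exp_log h] at this)
    (Pool.Agent.R303.LW.win_abs Pool.Agent.R303.LW.ll_meas Pool.Agent.R303.LW.abs_ll_le β hβ hcore)

lemma core_zero (ρ : ℂ) (hz : riemannZeta ρ = 0) (h0 : 1 / 2 < ρ.re) (h1 : ρ.re < 1) :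
    ∃ c : ℝ, 0 < c ∧ ∀ᶠ t : ℝ in atTop,
      c * Real.exp (ρ.re * t) ≤ ∫ v : ℝ, |ll (t - v)| * H313.TK.kp v := by
  obtain ⟨c, hc, h⟩ := Pool.Agent.R303.LW.coreL ρ hz h0 h1
  refine ⟨c, hc, ?_⟩
  filter_upwards [h] with t ht
  have h2 := ht 1 (Or.inl rfl)
  simp only [one_mul] at h2
  refine h2.trans ?_
  have hm := Pool.Agent.R303.LW.ll_meas
  have hb := Pool.Agent.R303.LW.abs_ll_le
  refine integral_mono
    (H313.TK.avg_int (fun u => max (ll u) 0) (by fun_prop) (fun u => ?_) t)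
    (H313.TK.avg_int (fun u => |ll u|) (by fun_prop) (fun u => by rw [abs_abs]; exact hb u) t) fun v => ?_
  · rw [abs_of_nonneg (le_max_right _ _)]
    exact max_le ((le_abs_self _).trans (hb u)) (Real.exp_pos _).le
  · exact mul_le_mul_of_nonneg_right (max_le (le_abs_self _) (abs_nonneg _)) (H313.TK.kp_nonneg v)

theorem main (θ ε : ℝ) (hθ : 1 / 2 ≤ θ) (hε : 0 < ε) (hε1 : ε < 1)
    (h : θ = 1 / 2 ∨ ∃ s : ℂ, riemannZeta s = 0 ∧ θ < s.re) :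
    ∀ᶠ X : ℝ in atTop, ∀ H : ℝ, 0 < H → H ≤ X → ∃ Y ∈ Icc X (X ^ (1 + ε)), H * X ^ θ ≤ I Y H := by
  by_cases hz : ∃ s : ℂ, riemannZeta s = 0 ∧ θ < s.re
  · obtain ⟨σ0, h1, h2, h3, h4⟩ := supre hz
    obtain ⟨ρ, h5, h6⟩ := h4 (min (ε / 16) (σ0 - θ)) (lt_min (by linarith) (by linarith))
    have h7 := min_le_left (ε / 16) (σ0 - θ)
    have h8 := min_le_right (ε / 16) (σ0 - θ)
    obtain ⟨c, hc, hlow⟩ := low_of_core (by linarith : 1 / 2 ≤ ρ.re)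
      (core_zero ρ h5 (by linarith) (Pool.Agent.W190.zero_FF h5).2)
    obtain ⟨C, hC⟩ := liou_bound (by linarith) h3 (σ0 + ε / 16) (by linarith)
    filter_upwards [Pool.Agent.R303.LW.chain1 laR (by linarith) h2 hε hε1 (by linarith : 1 / 2 ≤ ρ.re)
      (by linarith) hc hC hlow, eventually_ge_atTop (1:ℝ)] with X g1 g2 H hH hHX
    obtain ⟨Y, hY, hI⟩ := g1 H hH hHX
    refine ⟨Y, hY, ?_⟩
    rw [I_eq (by linarith [hY.1]) hH]
    refine le_trans ?_ hI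
    exact mul_le_mul_of_nonneg_left (Real.rpow_le_rpow_of_exponent_le g2 h1.le) hH.le
  · have hθ2 : θ = 1 / 2 := by
      rcases h with h | h
      · exact h
      · exact absurd h hz
    subst hθ2
    have hfree : ∀ s : ℂ, 1 / 2 < s.re → riemannZeta s ≠ 0 := fun s hs h0 => hz ⟨s, h0, hs⟩
    obtain ⟨c, hc, hlow⟩ := low_of_core le_rfl Pool.Agent.R303.LW.core_half
    obtain ⟨C, hC⟩ := liou_bound le_rfl hfree (1 / 2 + ε / 16) (by linarith)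
    filter_upwards [Pool.Agent.R303.LW.chain1 laR le_rfl (by norm_num) hε hε1 le_rfl
      (by linarith) hc hC hlow, eventually_ge_atTop (1:ℝ)] with X g1 g2 H hH hHX
    obtain ⟨Y, hY, hI⟩ := g1 H hH hHX
    refine ⟨Y, hY, ?_⟩
    rw [I_eq (by linarith [hY.1]) hH]
    exact hI

/-- the inequality in property (P) -/
theorem pform (θ ε : ℝ) (hθ : 1 / 2 ≤ θ) (hθ1 : θ < 1) (hε : 0 < ε)
    (h : θ = 1 / 2 ∨ ∃ s : ℂ, riemannZeta s = 0 ∧ θ < s.re) :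
    ∃ δ : ℝ, 0 < δ ∧ ∀ᶠ X : ℝ in atTop, ∀ H : ℝ, X ^ (2 * (1 - θ) - δ) ≤ H → H ≤ X →
      ∃ Y ∈ Icc X (X ^ (1 + δ)), Y * H ^ (1 / 2 - ε) ≤ I Y H := by
  set δ : ℝ := ε * (1 - θ) / (1 + ε) with hδ
  have hδ0 : 0 < δ := div_pos (mul_pos hε (by linarith)) (by linarith)
  have hδe : δ * (1 + ε) = ε * (1 - θ) := div_mul_cancel₀ _ (by linarith)
  have hδ1 : δ < 1 - θ := by
    rw [hδ, div_lt_iff₀ (by linarith)]
    nlinarith
  refine ⟨δ, hδ0, ?_⟩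
  filter_upwards [main θ δ hθ hδ0 (by linarith) h, eventually_ge_atTop (1:ℝ)] with X g1 g2 H h1 h2
  have hX : 0 < X := by linarith
  have hH : 0 < H := lt_of_lt_of_le (by positivity) h1
  obtain ⟨Y, hY, hI⟩ := g1 H hH h2
  refine ⟨Y, hY, le_trans ?_ hI⟩
  have e1 : H ^ (1 / 2 - ε) = H * H ^ (-(1 / 2 + ε)) := by
    conv_rhs => rw [← Real.rpow_one H, ← Real.rpow_mul hH.le, one_mul, ← Real.rpow_add hH]
    congr 1
    ring
  have e2 : H ^ (-(1 / 2 + ε)) ≤ (X ^ (2 * (1 - θ) - δ)) ^ (-(1 / 2 + ε)) :=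
    Real.rpow_le_rpow_of_nonpos (by positivity) h1 (by linarith)
  have e3 : (X ^ (2 * (1 - θ) - δ)) ^ (-(1 / 2 + ε)) = X ^ (-((2 * (1 - θ) - δ) * (1 / 2 + ε))) := by
    rw [← Real.rpow_mul hX.le]
    congr 1
    ring
  rw [e1]
  have hYX : Y ≤ X ^ (1 + δ) := hY.2
  have hY0 : 0 < Y := by linarith [hY.1]
  calc Y * (H * H ^ (-(1 / 2 + ε))) = H * (Y * H ^ (-(1 / 2 + ε))) := by ring
    _ ≤ H * (X ^ (1 + δ) * X ^ (-((2 * (1 - θ) - δ) * (1 / 2 + ε)))) := by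
        rw [← e3]
        gcongr
    _ ≤ H * X ^ θ := by
        rw [← Real.rpow_add hX]
        refine mul_le_mul_of_nonneg_left (Real.rpow_le_rpow_of_exponent_le g2 ?_) hH.le
        nlinarith

/-- The inequality in property (P) on every window. -/
theorem result :
    (∀ ε : ℝ, 0 < ε → ε < 1 → ∀ᶠ X : ℝ in atTop, ∀ H : ℝ, 0 < H → H ≤ X →
      ∃ Y ∈ Icc X (X ^ (1 + ε)), H * X ^ (1 / 2 : ℝ) ≤ I Y H) ∧
    (∀ θ ε : ℝ, 1 / 2 ≤ θ → 0 < ε → ε < 1 → (∃ s : ℂ, riemannZeta s = 0 ∧ θ < s.re) →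
      ∀ᶠ X : ℝ in atTop, ∀ H : ℝ, 0 < H → H ≤ X →
        ∃ Y ∈ Icc X (X ^ (1 + ε)), H * X ^ θ ≤ I Y H) ∧
    (∀ ε : ℝ, 0 < ε → ∃ δ : ℝ, 0 < δ ∧ ∀ᶠ X : ℝ in atTop, ∀ H : ℝ, X ^ (1 - δ) ≤ H → H ≤ X →
      ∃ Y ∈ Icc X (X ^ (1 + δ)), Y * H ^ (1 / 2 - ε) ≤ I Y H) ∧
    (∀ θ ε : ℝ, 1 / 2 ≤ θ → 0 < ε → (∃ s : ℂ, riemannZeta s = 0 ∧ θ < s.re) →
      ∃ δ : ℝ, 0 < δ ∧ ∀ᶠ X : ℝ in atTop, ∀ H : ℝ, X ^ (2 * (1 - θ) - δ) ≤ H → H ≤ X →
        ∃ Y ∈ Icc X (X ^ (1 + δ)), Y * H ^ (1 / 2 - ε) ≤ I Y H) := by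
  refine ⟨fun ε h1 h2 => main (1 / 2) ε le_rfl h1 h2 (Or.inl rfl),
    fun θ ε h0 h1 h2 hz => main θ ε h0 h1 h2 (Or.inr hz), fun ε h1 => ?_, fun θ ε h0 h1 hz => ?_⟩
  · have h := pform (1 / 2) ε le_rfl (by norm_num) h1 (Or.inl rfl)
    norm_num at h ⊢
    exact h
  · obtain ⟨s, hs, hsθ⟩ := hz
    exact pform θ ε h0 (hsθ.trans (Pool.Agent.W190.zero_FF hs).2) h1 (Or.inr ⟨s, hs, hsθ⟩)

end Pool.Agent.Results.MP_f7161d_nt.LongWindows
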