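import Pool.Agent.R303.SW.Lsh

/-!
# Property (P) for the Liouville function and the zeros of the zeta function

`I(X,H) = ∫_X^{2X} |∑_{x ≤ n ≤ x+H} λ(n)| dx`.
-/

set_option autoImplicit false
set_option maxHeartbeats 4000000

open Filter Topology Set MeasureTheory
open Pool.Agent.W190 (SF rh_free)
open Pool.Agent.R303.SW

namespace Pool.Agent.Results.MP_f7161d_nt.PropertyPZeros

/-- the sum of `λ(n)` over the natural numbers `n` with `x ≤ n ≤ x + H` -/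
noncomputable def S (x H : ℝ) : ℝ :=
  ∑ n ∈ (Finset.range (⌊x + H⌋₊ + 1)).filter (fun n : ℕ => x ≤ (n : ℝ)),
    ((ArithmeticFunction.liouville n : ℤ) : ℝ)

/-- `I(X,H)` -/
noncomputable def I (X H : ℝ) : ℝ := ∫ x in X..(2 * X), |S x H|

/-- property (P) of the function `H` -/
def P (H : ℝ → ℝ) : Prop :=
  ∀ ε : ℝ, 0 < ε → ∃ c : ℝ, 0 < c ∧ ∀ᶠ X : ℝ in atTop, c * (X * (H X) ^ (1 / 2 - ε)) ≤ I X (H X)

lemma S_eq {x H : ℝ} (hx : 0 < x) (hH : 0 < H) (hn : ∀ n : ℕ, x + 0 / 2 ≠ n) :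
    S x H = SF laR (x + H) - SF laR x := by
  unfold S SF
  have hle : ⌊x⌋₊ ≤ ⌊x + H⌋₊ := Nat.floor_le_floor (by linarith)
  have e1 : Finset.Icc 1 ⌊x + H⌋₊ = Finset.Icc 1 ⌊x⌋₊ ∪ Finset.Ioc ⌊x⌋₊ ⌊x + H⌋₊ := by
    ext n
    simp only [Finset.mem_union, Finset.mem_Icc, Finset.mem_Ioc]
    omega
  rw [e1, Finset.sum_union (Finset.disjoint_left.2 fun n h1 h2 => by
    rw [Finset.mem_Icc] at h1
    rw [Finset.mem_Ioc] at h2
    omega), add_sub_cancel_left]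
  have e2 : (Finset.range (⌊x + H⌋₊ + 1)).filter (fun n : ℕ => x ≤ (n : ℝ)) =
      Finset.Ioc ⌊x⌋₊ ⌊x + H⌋₊ := by
    ext n
    rw [Finset.mem_filter, Finset.mem_range, Finset.mem_Ioc, Nat.floor_lt hx.le]
    constructor
    · rintro ⟨h1, h2⟩
      refine ⟨lt_of_le_of_ne h2 ?_, by omega⟩
      have := hn n
      rw [zero_div, add_zero] at this
      exact this
    · rintro ⟨h1, h2⟩
      exact ⟨by omega, h1.le⟩
  rw [e2]
  rfl

lemma I_eq {X H : ℝ} (hX : 0 < X) (hH : 0 < H) :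
    I X H = ∫ x in X..(2 * X), |DG laR H x| := by
  unfold I
  refine intervalIntegral.integral_congr_ae ?_
  filter_upwards [ae_not_nat 0] with x hx hx2
  rw [uIoc_of_le (by linarith)] at hx2
  show |S x H| = |DG laR H x|
  rw [S_eq (hX.trans hx2.1) hH hx]
  rfl

theorem part1 (θ δ : ℝ) (hθ : 1 / 2 ≤ θ) (hδ : 0 < δ)
    (hz : ∃ s : ℂ, riemannZeta s = 0 ∧ θ < s.re) :
    ∀ᶠ X : ℝ in atTop, ∀ H : ℝ, 0 < H → H ≤ X ^ (1 - δ) → H * X ^ θ ≤ I X H := by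
  have h := liou_short (κ := 0) (c := 1) (θ := θ) (e0 := δ) le_rfl one_pos hθ
    (by nlinarith [sq_nonneg (2 * θ - 1)]) hz hδ
  filter_upwards [h, eventually_gt_atTop (0:ℝ)] with X g1 g2 H hH hH1
  have g3 := g1 H hH hH1
  rw [Real.rpow_zero, one_mul, div_one, ← two_mul] at g3
  rw [I_eq g2 hH]
  exact g3

/-- for lengths `≥ X^a` -/
theorem part2 (a δ : ℝ) (ha : a ≤ 1) (hδ : 0 < δ)
    (hz : ∃ s : ℂ, riemannZeta s = 0 ∧ 1 - a / 2 < s.re) :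
    ∃ η : ℝ, 0 < η ∧ ∀ᶠ X : ℝ in atTop, ∀ H : ℝ, X ^ a ≤ H → H ≤ X ^ (1 - δ) →
      X ^ (1 + η) * H ^ (1 / 2 : ℝ) ≤ I X H := by
  obtain ⟨s, hs, hsa⟩ := hz
  set θ := ((1 - a / 2) + s.re) / 2 with hθ
  have h1 : 1 - a / 2 < θ := by rw [hθ]; linarith
  have h2 : θ < s.re := by rw [hθ]; linarith
  refine ⟨θ - (1 - a / 2), by linarith, ?_⟩
  filter_upwards [part1 θ δ (by linarith) hδ ⟨s, hs, h2⟩, eventually_ge_atTop (1:ℝ)] with X g1 g2 H hH hH1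
  have hX : 0 < X := by linarith
  have hH0 : 0 < H := lt_of_lt_of_le (by positivity) hH
  refine le_trans ?_ (g1 H hH0 hH1)
  have e1 : X ^ (a / 2) ≤ H ^ (1 / 2 : ℝ) := by
    calc X ^ (a / 2) = (X ^ a) ^ (1 / 2 : ℝ) := by
          rw [← Real.rpow_mul hX.le]
          congr 1
          ring
      _ ≤ _ := Real.rpow_le_rpow (by positivity) hH (by norm_num)
  have e2 : H = H ^ (1 / 2 : ℝ) * H ^ (1 / 2 : ℝ) := by
    rw [← Real.rpow_add hH0]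
    norm_num
  have e3 : X ^ (1 + (θ - (1 - a / 2))) = X ^ (a / 2) * X ^ θ := by
    rw [← Real.rpow_add hX]
    congr 1
    ring
  rw [e3]
  calc X ^ (a / 2) * X ^ θ * H ^ (1 / 2 : ℝ) ≤ H ^ (1 / 2 : ℝ) * X ^ θ * H ^ (1 / 2 : ℝ) := by gcongr
    _ = (H ^ (1 / 2 : ℝ) * H ^ (1 / 2 : ℝ)) * X ^ θ := by ring
    _ = H * X ^ θ := by rw [← e2]

/-- a failure of (P) gives a zero-free half-plane -/
theorem part3 (a δ : ℝ) (ha0 : 0 < a) (ha : a ≤ 1) (hδ : 0 < δ) (H : ℝ → ℝ)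
    (hH : ∀ᶠ X : ℝ in atTop, X ^ a ≤ H X ∧ H X ≤ X ^ (1 - δ)) (hP : ¬ P H) :
    ∀ s : ℂ, 1 - a / 2 < s.re → riemannZeta s ≠ 0 := by
  intro s hs hz
  refine hP fun ε hε => ⟨1, one_pos, ?_⟩
  obtain ⟨η, hη, h⟩ := part2 a δ ha hδ ⟨s, hz, hs⟩
  filter_upwards [h, hH, eventually_ge_atTop (1:ℝ)] with X g1 g2 g3
  have hX : 0 < X := by linarith
  refine le_trans ?_ (g1 (H X) g2.1 g2.2)
  have hH1 : 1 ≤ H X := (Real.one_le_rpow g3 ha0.le).trans g2.1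
  rw [one_mul]
  have e1 : X ≤ X ^ (1 + η) := by
    conv_lhs => rw [← Real.rpow_one X]
    exact Real.rpow_le_rpow_of_exponent_le g3 (by linarith)
  have e2 : (H X) ^ (1 / 2 - ε) ≤ (H X) ^ (1 / 2 : ℝ) :=
    Real.rpow_le_rpow_of_exponent_le hH1 (by linarith)
  exact mul_le_mul e1 e2 (by positivity) (by positivity)

/-- a bound of square root quality at isolated points -/
theorem part4 (a δ : ℝ) (ha : a ≤ 1) (hδ : 0 < δ)
    (h : ∀ η : ℝ, 0 < η → ∃ᶠ X : ℝ in atTop, ∃ H : ℝ, X ^ a ≤ H ∧ H ≤ X ^ (1 - δ) ∧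
      I X H ≤ X ^ (1 + η) * H ^ (1 / 2 : ℝ)) :
    ∀ s : ℂ, 1 - a / 2 < s.re → riemannZeta s ≠ 0 := by
  intro s hs hz
  obtain ⟨η, hη, h2⟩ := part2 a δ ha hδ ⟨s, hz, hs⟩
  obtain ⟨X, ⟨H, a1, a2, a3⟩, a4, a5⟩ :=
    ((h (η / 2) (by linarith)).and_eventually (h2.and (eventually_gt_atTop 1))).exists
  have hX : 0 < X := by linarith
  have hH0 : 0 < H := lt_of_lt_of_le (by positivity) a1
  have h3 := (a4 H a1 a2).trans a3
  have h4 : X ^ (1 + η) ≤ X ^ (1 + η / 2) := le_of_mul_le_mul_right h3 (by positivity)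
  have h5 := (Real.rpow_le_rpow_left_iff a5).1 h4
  linarith

theorem small_of_free (κ : ℝ) (hκ : 1 / 2 ≤ κ) (hfree : ∀ s : ℂ, κ < s.re → riemannZeta s ≠ 0)
    (ε : ℝ) (hε : 0 < ε) (hε1 : ε < 1) :
    ∀ᶠ X : ℝ in atTop, ∀ H : ℝ, 0 < H → H ≤ X → I X H ≤ X ^ (1 + κ + ε) := by
  obtain ⟨C, hC'⟩ := liou_bound hκ hfree (κ + ε / 2) (by linarith)
  have hC0 : 0 ≤ C := by
    have := (abs_nonneg _).trans (hC' 1 le_rfl)
    simpa using this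
  set K := 2 * (C * 3 ^ (κ + ε / 2)) with hK
  have t1 : ∀ᶠ X : ℝ in atTop, K < X ^ (ε / 2) :=
    (tendsto_rpow_atTop (by linarith)).eventually_gt_atTop _
  filter_upwards [t1, eventually_ge_atTop (1:ℝ)] with X g1 g2 H hH0 hHX
  have hX : 0 < X := by linarith
  have hb : ∀ z : ℝ, 1 ≤ z → z ≤ 3 * X → |SF laR z| ≤ C * (3 * X) ^ (κ + ε / 2) := by
    intro z h hz
    refine (hC' z h).trans ?_
    exact mul_le_mul_of_nonneg_left (Real.rpow_le_rpow (by linarith) hz (by linarith)) hC0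
  rw [I_eq hX hH0]
  have hpt : ∀ x ∈ Icc X (2 * X), |DG laR H x| ≤ X ^ (κ + ε) := by
    intro x hx
    unfold DG
    have h6 := hb (x + H) (by linarith [hx.1]) (by linarith [hx.2])
    have h7 := hb x (by linarith [hx.1]) (by linarith [hx.2])
    calc |SF laR (x + H) - SF laR x| ≤ |SF laR (x + H)| + |SF laR x| := abs_sub _ _
      _ ≤ 2 * (C * (3 * X) ^ (κ + ε / 2)) := by linarith
      _ = K * X ^ (κ + ε / 2) := by
          rw [hK, Real.mul_rpow (by norm_num) hX.le]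
          ring
      _ ≤ X ^ (ε / 2) * X ^ (κ + ε / 2) := by gcongr
      _ = X ^ (κ + ε) := by
          rw [← Real.rpow_add hX]
          congr 1
          ring
  have h8 : ∫ x in X..(2 * X), |DG laR H x| ≤ ∫ _ in X..(2 * X), X ^ (κ + ε) :=
    intervalIntegral.integral_mono_on (by linarith) (DG_II laR H X (2 * X)).abs (by simp) hpt
  refine h8.trans (le_of_eq ?_)
  rw [intervalIntegral.integral_const, smul_eq_mul]
  have : 2 * X - X = X := by ring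
  rw [this, add_assoc, Real.rpow_add hX 1 (κ + ε), Real.rpow_one]

/-- the criterion for half-planes -/
theorem part5 (κ : ℝ) (hκ : 1 / 2 ≤ κ) :
    (∀ s : ℂ, κ < s.re → riemannZeta s ≠ 0) ↔ ∀ ε : ℝ, 0 < ε → ε < 1 →
      ∃ᶠ X : ℝ in atTop, ∃ H : ℝ, X ^ (1 - ε) ≤ H ∧ H ≤ X ^ (1 - ε / 2) ∧ I X H ≤ X ^ (1 + κ + ε) := by
  constructor
  · intro hfree ε hε hε1
    refine Eventually.frequently ?_
    filter_upwards [small_of_free κ hκ hfree ε hε hε1, eventually_ge_atTop (1:ℝ)] with X g1 g2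
    have hX : 0 < X := by linarith
    refine ⟨X ^ (1 - ε), le_rfl, Real.rpow_le_rpow_of_exponent_le g2 (by linarith),
      g1 _ (by positivity) ?_⟩
    conv_rhs => rw [← Real.rpow_one X]
    exact Real.rpow_le_rpow_of_exponent_le g2 (by linarith)
  · intro h s hs hz
    have hs1 : s.re < 1 := (Pool.Agent.W190.zero_FF hz).2
    set θ := (κ + s.re) / 2 with hθ
    have h1 : κ < θ := by rw [hθ]; linarith
    have h2 : θ < s.re := by rw [hθ]; linarith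
    set ε := (θ - κ) / 3 with hε
    have hε0 : 0 < ε := by rw [hε]; linarith
    have hε1 : ε < 1 := by rw [hε]; linarith
    have h3 := part1 θ (ε / 2) (by linarith) (by linarith) ⟨s, hz, h2⟩
    obtain ⟨X, ⟨H, a1, a2, a3⟩, a4, a5⟩ :=
      ((h ε hε0 hε1).and_eventually (h3.and (eventually_gt_atTop 1))).exists
    have hX : 0 < X := by linarith
    have hH : 0 < H := lt_of_lt_of_le (by positivity) a1
    have a6 : X ^ (1 - ε) * X ^ θ ≤ X ^ (1 + κ + ε) := by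
      calc X ^ (1 - ε) * X ^ θ ≤ H * X ^ θ := by gcongr
        _ ≤ _ := (a4 H hH a2).trans a3
    rw [← Real.rpow_add hX] at a6
    have a7 := (Real.rpow_le_rpow_left_iff a5).1 a6
    linarith

/-- Property (P) and the zeros of the zeta function. -/
theorem result :
    (∀ θ δ : ℝ, 1 / 2 ≤ θ → 0 < δ → (∃ s : ℂ, riemannZeta s = 0 ∧ θ < s.re) →
      ∀ᶠ X : ℝ in atTop, ∀ H : ℝ, 0 < H → H ≤ X ^ (1 - δ) → H * X ^ θ ≤ I X H) ∧
    (∀ a δ : ℝ, 0 < a → a ≤ 1 → 0 < δ → ∀ H : ℝ → ℝ,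
      (∀ᶠ X : ℝ in atTop, X ^ a ≤ H X ∧ H X ≤ X ^ (1 - δ)) → ¬ P H →
      ∀ s : ℂ, 1 - a / 2 < s.re → riemannZeta s ≠ 0) ∧
    (∀ a δ : ℝ, a ≤ 1 → 0 < δ →
      (∀ η : ℝ, 0 < η → ∃ᶠ X : ℝ in atTop, ∃ H : ℝ, X ^ a ≤ H ∧ H ≤ X ^ (1 - δ) ∧
        I X H ≤ X ^ (1 + η) * H ^ (1 / 2 : ℝ)) →
      ∀ s : ℂ, 1 - a / 2 < s.re → riemannZeta s ≠ 0) ∧
    (∀ κ : ℝ, 1 / 2 ≤ κ → ((∀ s : ℂ, κ < s.re → riemannZeta s ≠ 0) ↔ ∀ ε : ℝ, 0 < ε → ε < 1 →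
      ∃ᶠ X : ℝ in atTop, ∃ H : ℝ, X ^ (1 - ε) ≤ H ∧ H ≤ X ^ (1 - ε / 2) ∧
        I X H ≤ X ^ (1 + κ + ε))) :=
  ⟨part1, fun a δ h1 h2 h3 H hH hP => part3 a δ h1 h2 h3 H hH hP, part4, part5⟩

end Pool.Agent.Results.MP_f7161d_nt.PropertyPZeros
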